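import Pool.Agent.Rec3e.Assemble
import Pool.Agent.Rec3e.SSide
import Pool.Agent.Rec3e.TSide

namespace Pool.Agent.Results.MP_3e1352_an.NonRecurrence

open Set Filter Topology

/-- There are a nonempty compact metric space and two minimal homeomorphisms `T`, `S` of it such
that no point is recurrent along `(n, 2n)` for `T` and along `n ^ 2` for `S` simultaneously. -/
theorem result :
    ∃ (X : Type) (_ : MetricSpace X) (_ : CompactSpace X) (_ : Nonempty X) (T S : X ≃ₜ X),
      (∀ x : X, Dense (range fun n : ℤ => (T ^ n) x)) ∧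
      (∀ x : X, Dense (range fun n : ℤ => (S ^ n) x)) ∧
      ∀ x : X, ¬ ∃ n : ℕ → ℤ, Tendsto n atTop atTop ∧
        Tendsto (fun i => (T ^ (n i)) x) atTop (𝓝 x) ∧
        Tendsto (fun i => (T ^ (2 * n i)) x) atTop (𝓝 x) ∧
        Tendsto (fun i => (S ^ ((n i) ^ 2)) x) atTop (𝓝 x) :=
  Rec3e.assemble Rec3e.tside Rec3e.sside

end Pool.Agent.Results.MP_3e1352_an.NonRecurrence
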